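import Mathlib

/-!
# The exact order of `1 + x + x^(2^r) + x^(2^r + 2)` over `F_2`

For every `r ≥ 0` the orders of `1 + x + x^(2^r) + x^(2^r+2)` and of its reciprocal
`1 + x^2 + x^(2^r+1) + x^(2^r+2)` over `F_2` are equal to `4^r + 2^r + 1`.

Proof. Put `q = 2^r`, `N = q^2 + q + 1` and let `z` be a primitive `N`-th root of unity in an algebraic
closure of `F_2`. Then `b = (z^q + 1) / (z^(q+1) + 1)` and `z b` are both roots of
`1 + x^q + x^(q+1)`. So if the polynomial divides `1 + x^e` then `b^e = 1 = (z b)^e`, hence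
`z^e = 1` and `N` divides `e`.
-/

set_option autoImplicit false

open Polynomial

namespace Pool.Agent.Results.MP_9cbaed_nt.ExactOrder

/-- `e` is the order of the polynomial `f` over `F_2`: the least positive integer such that `f`
divides `1 + x^e`. -/
def IsOrder (f : (ZMod 2)[X]) (e : ℕ) : Prop :=
  IsLeast {e : ℕ | 0 < e ∧ f ∣ 1 + X ^ e} e

theorem four_pow (r : ℕ) : (4 : ℕ) ^ r = 2 ^ r * 2 ^ r := by
  rw [← mul_pow]
  norm_num

section field

variable {K : Type*} [Field K] [CharP K 2]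

theorem frob (r : ℕ) (x y : K) : (x + y) ^ 2 ^ r = x ^ 2 ^ r + y ^ 2 ^ r :=
  add_pow_char_pow x y 2 r

/-- `b = (z^q + 1) / (z^(q+1) + 1)` satisfies `b^q (b + 1) = 1` and `(z b)^q (z b + 1) = 1`. -/
theorem exists_root {r : ℕ} {z : K} (hz : z ^ (4 ^ r + 2 ^ r + 1) = 1)
    (hz1 : z ^ (2 ^ r + 1) ≠ 1) :
    ∃ b : K, b ^ 2 ^ r * (b + 1) = 1 ∧ (z * b) ^ 2 ^ r * (z * b + 1) = 1 := by
  have h2 : (2 : K) = 0 := CharTwo.two_eq_zero
  have hq : (4 : ℕ) ^ r = 2 ^ r * 2 ^ r := four_pow r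
  have hfrob : ∀ x y : K, (x + y) ^ 2 ^ r = x ^ 2 ^ r + y ^ 2 ^ r := frob r
  rw [hq] at hz
  generalize 2 ^ r = q at *
  have hz0 : z ≠ 0 := by
    rintro rfl
    rw [zero_pow (Nat.succ_ne_zero _)] at hz
    exact zero_ne_one hz
  have hd : z ^ (q + 1) + 1 ≠ 0 := by
    intro h
    apply hz1
    linear_combination h - h2
  have hw' : z + 1 ≠ 0 := by
    intro h
    have : z = 1 := by linear_combination h - h2
    exact hz1 (by rw [this, one_pow])
  -- `z ^ (q * q) * z ^ (q + 1) = 1`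
  have h1 : z ^ (q * q) * z ^ (q + 1) = 1 := by
    rw [← hz, ← pow_add]
    congr 1
  have hb : (z ^ q + 1) ^ q * z ^ (q + 1) = z ^ (q + 1) + 1 := by
    rw [hfrob, one_pow, ← pow_mul, add_mul, h1, one_mul]
    ring
  have hc : (z ^ (q + 1) + 1) ^ q * z = z + 1 := by
    rw [hfrob, one_pow, ← pow_mul, add_mul, one_mul, add_comm]
    congr 1
    rw [show (q + 1) * q = q * q + q by ring, pow_add, mul_assoc, ← pow_succ, h1]
  obtain ⟨b, hbd⟩ : ∃ b : K, b * (z ^ (q + 1) + 1) = z ^ q + 1 :=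
    ⟨(z ^ q + 1) / (z ^ (q + 1) + 1), div_mul_cancel₀ _ hd⟩
  have hbq : b ^ q * (z ^ q * (z + 1)) = z ^ (q + 1) + 1 := by
    have e1 : b ^ q * (z ^ (q + 1) + 1) ^ q = (z ^ q + 1) ^ q := by rw [← mul_pow, hbd]
    have e2 : b ^ q * (z ^ q * (z + 1)) = b ^ q * ((z ^ (q + 1) + 1) ^ q * z) * z ^ q := by
      rw [hc]
      ring
    rw [e2]
    calc b ^ q * ((z ^ (q + 1) + 1) ^ q * z) * z ^ q
        = (b ^ q * (z ^ (q + 1) + 1) ^ q) * z ^ (q + 1) := by ring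
      _ = z ^ (q + 1) + 1 := by rw [e1, hb]
  refine ⟨b, ?_, ?_⟩
  · apply mul_right_cancel₀ hd
    have e3 : (b + 1) * (z ^ (q + 1) + 1) = z ^ q * (z + 1) := by
      rw [add_mul, hbd]
      linear_combination h2
    rw [mul_assoc, e3, hbq, one_mul]
  · apply mul_right_cancel₀ hd
    have e3 : (z * b + 1) * (z ^ (q + 1) + 1) = z + 1 := by
      linear_combination z * hbd + z ^ (q + 1) * h2
    rw [mul_assoc, e3, mul_pow, one_mul, ← hbq]
    ring

end field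

section poly

theorem dvd_one (r : ℕ) : (1 + X + X ^ 2 ^ r + X ^ (2 ^ r + 2) : (ZMod 2)[X]) ∣
    1 + X ^ (4 ^ r + 2 ^ r + 1) := by
  have h2 : (2 : (ZMod 2)[X]) = 0 := CharTwo.two_eq_zero
  have hfrob : ∀ x y : (ZMod 2)[X], (x + y) ^ 2 ^ r = x ^ 2 ^ r + y ^ 2 ^ r :=
    fun x y => add_pow_char_pow x y 2 r
  have hpos : 0 < 2 ^ r := by positivity
  rw [four_pow]
  generalize 2 ^ r = q at *
  have hf : (1 + X + X ^ q + X ^ (q + 2) : (ZMod 2)[X]) = (1 + X) * (1 + X ^ q + X ^ (q + 1)) := by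
    linear_combination (-X ^ (q + 1)) * h2
  rw [hf]
  apply IsCoprime.mul_dvd
  · exact ⟨X ^ q, 1, by linear_combination (X ^ q + X ^ (q + 1)) * h2⟩
  · obtain ⟨c, hc⟩ := sub_dvd_pow_sub_pow (X : (ZMod 2)[X]) 1 (q * q + q + 1)
    refine ⟨c, ?_⟩
    rw [one_pow] at hc
    linear_combination hc + (1 - c) * h2
  · refine ⟨X ^ (q * q) + (1 + X ^ q + X ^ (q + 1)) ^ (q - 1), ?_⟩
    have e1 : (1 + X ^ q + X ^ (q + 1) : (ZMod 2)[X]) * (1 + X ^ q + X ^ (q + 1)) ^ (q - 1) =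
        1 + X ^ (q * q) + X ^ (q * q + q) := by
      rw [← pow_succ', Nat.sub_add_cancel hpos, hfrob, hfrob, one_pow, ← pow_mul, ← pow_mul]
      ring
    rw [mul_add, e1]
    have e2 : (X : (ZMod 2)[X]) ^ (q * q + q + 1) = X ^ (q * q) * X ^ (q + 1) := by
      rw [← pow_add]
      congr 1
    have e3 : (X : (ZMod 2)[X]) ^ (q * q + q) = X ^ (q * q) * X ^ q := by
      rw [← pow_add]
    rw [e2, e3]
    linear_combination (-X ^ (q * q) - X ^ (q * q) * X ^ q) * h2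

theorem dvd_two (r : ℕ) : (1 + X ^ 2 + X ^ (2 ^ r + 1) + X ^ (2 ^ r + 2) : (ZMod 2)[X]) ∣
    1 + X ^ (4 ^ r + 2 ^ r + 1) := by
  have h2 : (2 : (ZMod 2)[X]) = 0 := CharTwo.two_eq_zero
  have hfrob : ∀ x y : (ZMod 2)[X], (x + y) ^ 2 ^ r = x ^ 2 ^ r + y ^ 2 ^ r :=
    fun x y => add_pow_char_pow x y 2 r
  have hpos : 0 < 2 ^ r := by positivity
  rw [four_pow]
  generalize 2 ^ r = q at *
  have hf : (1 + X ^ 2 + X ^ (q + 1) + X ^ (q + 2) : (ZMod 2)[X]) =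
      (1 + X) * (1 + X + X ^ (q + 1)) := by
    linear_combination (-X) * h2
  rw [hf]
  apply IsCoprime.mul_dvd
  · obtain ⟨c, hc⟩ := sub_dvd_pow_sub_pow (X : (ZMod 2)[X]) 1 (q + 1)
    rw [one_pow] at hc
    refine ⟨c + 1, 1, ?_⟩
    linear_combination (-hc) + (c + X ^ (q + 1) + X) * h2
  · obtain ⟨c, hc⟩ := sub_dvd_pow_sub_pow (X : (ZMod 2)[X]) 1 (q * q + q + 1)
    refine ⟨c, ?_⟩
    rw [one_pow] at hc
    linear_combination hc + (1 - c) * h2
  · refine ⟨1 + X * (1 + X + X ^ (q + 1)) ^ (q - 1), ?_⟩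
    have e1 : (1 + X + X ^ (q + 1) : (ZMod 2)[X]) * (1 + X + X ^ (q + 1)) ^ (q - 1) =
        1 + X ^ q + X ^ (q * q + q) := by
      rw [← pow_succ', Nat.sub_add_cancel hpos, hfrob, hfrob, one_pow, ← pow_mul]
      ring
    have e2 : (1 + X + X ^ (q + 1) : (ZMod 2)[X]) * (1 + X * (1 + X + X ^ (q + 1)) ^ (q - 1)) =
        (1 + X + X ^ (q + 1)) + X * ((1 + X + X ^ (q + 1)) * (1 + X + X ^ (q + 1)) ^ (q - 1)) := by
      ring
    rw [e2, e1]
    linear_combination (-X - X ^ (q + 1)) * h2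

end poly

/-- If `z` is a primitive `N`-th root of unity and `b`, `z b` are both killed by `y ^ e = 1` then
`N ≤ e`. -/
theorem le_of_roots {K : Type*} [Field K] {N e : ℕ} {z b : K} (hz : IsPrimitiveRoot z N)
    (he : 0 < e) (h1 : b ^ e = 1) (h2 : (z * b) ^ e = 1) : N ≤ e := by
  rw [mul_pow, h1, mul_one] at h2
  exact Nat.le_of_dvd he (hz.dvd_of_pow_eq_one _ h2)

theorem exists_good (r : ℕ) : ∃ z b : AlgebraicClosure (ZMod 2),
    IsPrimitiveRoot z (4 ^ r + 2 ^ r + 1) ∧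
      b ^ 2 ^ r * (b + 1) = 1 ∧ (z * b) ^ 2 ^ r * (z * b + 1) = 1 := by
  have : NeZero ((4 ^ r + 2 ^ r + 1 : ℕ) : AlgebraicClosure (ZMod 2)) := by
    constructor
    intro h
    have h3 := (CharP.cast_eq_zero_iff (AlgebraicClosure (ZMod 2)) 2 _).mp h
    rw [four_pow] at h3
    have h4 : Even (2 ^ r * 2 ^ r + 2 ^ r) := by
      rw [show 2 ^ r * 2 ^ r + 2 ^ r = 2 ^ r * (2 ^ r + 1) by ring]
      exact Nat.even_mul_succ_self _
    have h5 := h4.two_dvd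
    omega
  obtain ⟨z, hz⟩ := HasEnoughRootsOfUnity.exists_primitiveRoot (AlgebraicClosure (ZMod 2))
    (4 ^ r + 2 ^ r + 1)
  have h4 : 0 < 4 ^ r := by positivity
  obtain ⟨b, h1, h2⟩ := exists_root hz.pow_eq_one
    (hz.pow_ne_one_of_pos_of_lt (Nat.succ_ne_zero _) (by omega))
  exact ⟨z, b, hz, h1, h2⟩

/-- **The orders of `1 + x + x^(2^r) + x^(2^r+2)` and `1 + x^2 + x^(2^r+1) + x^(2^r+2)` over `F_2`
are equal to `4^r + 2^r + 1`, for every `r`.** -/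
theorem result (r : ℕ) :
    IsOrder (1 + X + X ^ 2 ^ r + X ^ (2 ^ r + 2)) (4 ^ r + 2 ^ r + 1) ∧
      IsOrder (1 + X ^ 2 + X ^ (2 ^ r + 1) + X ^ (2 ^ r + 2)) (4 ^ r + 2 ^ r + 1) := by
  obtain ⟨z, b, hz, h1, h2⟩ := exists_good r
  have t2 : (2 : AlgebraicClosure (ZMod 2)) = 0 := CharTwo.two_eq_zero
  have key : ∀ y : AlgebraicClosure (ZMod 2), y ^ 2 ^ r * (y + 1) = 1 → y ≠ 0 := by
    rintro y hy rfl
    rw [zero_pow (by positivity), zero_mul] at hy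
    exact zero_ne_one hy
  refine ⟨⟨⟨Nat.succ_pos _, dvd_one r⟩, ?_⟩, ⟨⟨Nat.succ_pos _, dvd_two r⟩, ?_⟩⟩
  · rintro e ⟨he, c, hc⟩
    have step : ∀ y : AlgebraicClosure (ZMod 2), y ^ 2 ^ r * (y + 1) = 1 → y ^ e = 1 := by
      intro y hy
      have h3 := congrArg (aeval y) hc
      simp only [map_add, map_mul, map_one, map_pow, aeval_X] at h3
      have h4 : 1 + y + y ^ 2 ^ r + y ^ (2 ^ r + 2) = 0 := by
        linear_combination (y + 1) * hy + (1 + y) * t2 - (y ^ (2 ^ r + 1)) * t2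
      rw [h4, zero_mul] at h3
      linear_combination h3 - t2
    exact le_of_roots hz he (step b h1) (step (z * b) h2)
  · rintro e ⟨he, c, hc⟩
    have step : ∀ y : AlgebraicClosure (ZMod 2), y ^ 2 ^ r * (y + 1) = 1 → y ^ e = 1 := by
      intro y hy
      have hy0 := key y hy
      have h3 := congrArg (aeval y⁻¹) hc
      simp only [map_add, map_mul, map_one, map_pow, aeval_X] at h3
      have h4 : 1 + y⁻¹ ^ 2 + y⁻¹ ^ (2 ^ r + 1) + y⁻¹ ^ (2 ^ r + 2) = 0 := by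
        have h5 : y ^ (2 ^ r + 2) ≠ 0 := pow_ne_zero _ hy0
        apply mul_right_cancel₀ h5
        have e1 : y⁻¹ ^ 2 * y ^ (2 ^ r + 2) = y ^ 2 ^ r := by
          rw [pow_add y, mul_comm, mul_assoc, ← mul_pow, mul_inv_cancel₀ hy0, one_pow, mul_one]
        have e2 : y⁻¹ ^ (2 ^ r + 1) * y ^ (2 ^ r + 2) = y := by
          rw [show 2 ^ r + 2 = (2 ^ r + 1) + 1 by ring, pow_succ y, ← mul_assoc, ← mul_pow,
            inv_mul_cancel₀ hy0, one_pow, one_mul]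
        have e3 : y⁻¹ ^ (2 ^ r + 2) * y ^ (2 ^ r + 2) = 1 := by
          rw [← mul_pow, inv_mul_cancel₀ hy0, one_pow]
        rw [add_mul, add_mul, add_mul, e1, e2, e3, zero_mul]
        linear_combination (y + 1) * hy + (1 + y) * t2 - (y ^ (2 ^ r + 1)) * t2
      rw [h4, zero_mul] at h3
      have h6 : y⁻¹ ^ e = 1 := by linear_combination h3 - t2
      rwa [inv_pow, inv_eq_one] at h6
    exact le_of_roots hz he (step b h1) (step (z * b) h2)

end Pool.Agent.Results.MP_9cbaed_nt.ExactOrder
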